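import Pool.Agent.Helper74.DR.St

/-!
# Project DR (MP_26f0da_lc), module AUB: inverse homomorphisms and quotients
-/

set_option autoImplicit false

namespace Pool.Agent.Helper38.DR

open Pool.Agent.Helper74.DR

section

variable {α β : Type}

/-- the letters read by a head at the positions `0, ..., w.length + 1` -/
private def tp (w : List α) : List (Bool × Option α) :=
  (true, w[0]?) :: (w.map (fun y => (false, some y)) ++ [(false, none)])

private theorem tp_length (w : List α) : (tp w).length = w.length + 2 := by simp [tp]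

private theorem tp_get (w : List α) (p : ℕ) (hp : p ≤ w.length + 1) :
    (tp w)[p]? = some (decide (p = 0), w[p - 1]?) := by
  unfold tp
  rcases p with _ | p
  · simp
  · rw [List.getElem?_cons_succ]
    rcases Nat.lt_or_ge p w.length with h | h
    · rw [List.getElem?_append_left (by simpa using h)]
      simp [h]
    · have : p = w.length := by omega
      subst this
      simp

/-- the block of a letter -/
private def Bk (u v : List β) (h : α → List β) : Bool × Option α → List (Bool × Option β)
  | (true, _) => (true, u[0]?) :: u.map (fun y => (false, some y))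
  | (false, some a) => (h a).map (fun y => (false, some y))
  | (false, none) => v.map (fun y => (false, some y)) ++ [(false, none)]

private theorem bk_pos (u v : List β) (h : α → List β) (hh : ∀ a, h a ≠ [])
    (s : Bool × Option α) : 0 < (Bk u v h s).length := by
  rcases s with ⟨b, x⟩
  cases b
  · cases x with
    | none => simp [Bk]
    | some a =>
      have := List.length_pos_iff.2 (hh a)
      simpa [Bk] using this
  · simp [Bk]

private theorem tp_flat (u v : List β) (h : α → List β) (hu : u ≠ []) (w : List α) :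
    tp (u ++ (w.flatMap h ++ v)) = (tp w).flatMap (Bk u v h) := by
  have e0 : (u ++ (w.flatMap h ++ v))[0]? = u[0]? := by
    rw [List.getElem?_append_left (List.length_pos_iff.2 hu)]
  have e1 : (w.map (fun y => ((false, some y) : Bool × Option α))).flatMap (Bk u v h)
      = (w.flatMap h).map (fun y => ((false, some y) : Bool × Option β)) := by
    rw [List.flatMap_map, List.map_flatMap]
    rfl
  unfold tp
  rw [e0, List.flatMap_cons, List.flatMap_append, e1, List.flatMap_singleton, List.map_append,
    List.map_append]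
  simp [Bk]

end

/-! ### Blocks -/

section

variable {S S' : Type} (B : S → List S')

/-- the start of the block number `i` -/
private def st (R : List S) (i : ℕ) : ℕ := ((R.take i).flatMap B).length

private theorem st_zero (R : List S) : st B R 0 = 0 := by simp [st]

private theorem st_succ (R : List S) (i : ℕ) (s : S) (hs : R[i]? = some s) :
    st B R (i + 1) = st B R i + (B s).length := by
  unfold st
  rw [List.take_succ, hs]
  simp

private theorem flat_get (R : List S) (i : ℕ) (s : S) (hs : R[i]? = some s) (x : ℕ)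
    (hx : x < (B s).length) : (R.flatMap B)[st B R i + x]? = (B s)[x]? := by
  induction R generalizing i with
  | nil => simp at hs
  | cons a R ih =>
    rcases i with _ | i
    · simp only [List.getElem?_cons_zero, Option.some.injEq] at hs
      subst hs
      rw [st_zero, Nat.zero_add, List.flatMap_cons, List.getElem?_append_left hx]
    · rw [List.getElem?_cons_succ] at hs
      have e : st B (a :: R) (i + 1) = (B a).length + st B R i := by
        simp [st]
      rw [e, List.flatMap_cons, List.getElem?_append_right (by omega)]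
      rw [← ih i hs]
      congr 1
      omega

private theorem st_lt (R : List S) (i : ℕ) (s : S) (hs : R[i]? = some s) (x : ℕ)
    (hx : x < (B s).length) : st B R i + x < (R.flatMap B).length := by
  have h := flat_get B R i s hs x hx
  rw [List.getElem?_eq_getElem hx] at h
  exact (List.getElem?_eq_some_iff.1 h).1

private theorem st_last (R : List S) (i : ℕ) (hi : R.length = i) :
    st B R i = (R.flatMap B).length := by
  unfold st
  rw [← hi, List.take_length]

end

/-! ### One head -/

/-- the position after a move -/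
private def mv (n : ℕ) (m : Fin 3) (p : ℕ) : ℕ :=
  if m = 0 then p - 1 else if m = 1 then p else min (p + 1) (n + 1)

/-- the move of a head of the new automaton and the new offset -/
private def hd {α : Type} (r : Bool × Option α) (len x : ℕ) (m : Fin 3) : Fin 3 × Option ℕ :=
  if m = 0 then
    (if 0 < x then (1, some (x - 1)) else if r.1 = true then (1, some 0) else (0, none))
  else if m = 1 then (1, some x)
  else if x + 1 < len then (1, some (x + 1))
  else if r.1 = false ∧ r.2.isNone = true then (1, some x) else (2, some 0)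

/-- the offset -/
private def ov (len : ℕ) : Option ℕ → ℕ
  | none => len - 1
  | some o => o

private theorem head_step {α β : Type} (u v : List β) (h : α → List β) (hu : u ≠ [])
    (hh : ∀ a, h a ≠ []) (w : List α) (i x : ℕ) (hi : i ≤ w.length + 1)
    (hx : x < (Bk u v h (decide (i = 0), w[i - 1]?)).length) (m m' : Fin 3) (o' : Option ℕ)
    (i' : ℕ) (hm : (m', o') = hd (decide (i = 0), w[i - 1]?)
      (Bk u v h (decide (i = 0), w[i - 1]?)).length x m) (hi' : i' = mv w.length m' i) :
    i' ≤ w.length + 1 ∧
    ov (Bk u v h (decide (i' = 0), w[i' - 1]?)).length o' <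
      (Bk u v h (decide (i' = 0), w[i' - 1]?)).length ∧
    mv (u ++ (w.flatMap h ++ v)).length m (st (Bk u v h) (tp w) i + x) =
      st (Bk u v h) (tp w) i' + ov (Bk u v h (decide (i' = 0), w[i' - 1]?)).length o' := by
  have hlen : ((tp w).flatMap (Bk u v h)).length = (u ++ (w.flatMap h ++ v)).length + 2 := by
    rw [← tp_flat u v h hu w, tp_length]
  have hP := st_lt (Bk u v h) (tp w) i _ (tp_get w i hi) x hx
  rw [hlen] at hP
  have hsucc := st_succ (Bk u v h) (tp w) i _ (tp_get w i hi)
  unfold hd at hm
  by_cases m0 : m = 0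
  · rw [if_pos m0] at hm
    have e1 : mv (u ++ (w.flatMap h ++ v)).length m (st (Bk u v h) (tp w) i + x) =
        st (Bk u v h) (tp w) i + x - 1 := by
      unfold mv
      rw [if_pos m0]
    rw [e1]
    by_cases x0 : 0 < x
    · rw [if_pos x0, Prod.mk.injEq] at hm
      obtain ⟨rfl, rfl⟩ := hm
      have e2 : i' = i := hi'
      subst e2
      refine ⟨hi, ?_, ?_⟩
      · exact lt_of_le_of_lt (Nat.sub_le _ _) hx
      · show st (Bk u v h) (tp w) i' + x - 1 = st (Bk u v h) (tp w) i' + (x - 1)
        omega
    · rw [if_neg x0] at hm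
      have x00 : x = 0 := by omega
      subst x00
      by_cases i0 : i = 0
      · subst i0
        rw [if_pos (by simp), Prod.mk.injEq] at hm
        obtain ⟨rfl, rfl⟩ := hm
        have e2 : i' = 0 := hi'
        subst e2
        refine ⟨hi, hx, ?_⟩
        rw [st_zero]
        rfl
      · rw [if_neg (by simpa using i0), Prod.mk.injEq] at hm
        obtain ⟨rfl, rfl⟩ := hm
        have e2 : i' = i - 1 := hi'
        subst e2
        have hi1 : i - 1 ≤ w.length + 1 := by omega
        have hpos := bk_pos u v h hh (decide (i - 1 = 0), w[i - 1 - 1]?)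
        refine ⟨hi1, ?_, ?_⟩
        · exact Nat.sub_lt hpos Nat.one_pos
        · have hs := st_succ (Bk u v h) (tp w) (i - 1) _ (tp_get w (i - 1) hi1)
          rw [Nat.sub_add_cancel (by omega : 1 ≤ i)] at hs
          rw [hs]
          show _ = _ + ((Bk u v h (decide (i - 1 = 0), w[i - 1 - 1]?)).length - 1)
          omega
  · rw [if_neg m0] at hm
    by_cases m1 : m = 1
    · rw [if_pos m1, Prod.mk.injEq] at hm
      obtain ⟨rfl, rfl⟩ := hm
      have e2 : i' = i := hi'
      subst e2
      refine ⟨hi, hx, ?_⟩
      unfold mv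
      rw [if_neg m0, if_pos m1]
      rfl
    · rw [if_neg m1] at hm
      have e1 : mv (u ++ (w.flatMap h ++ v)).length m (st (Bk u v h) (tp w) i + x) =
          min (st (Bk u v h) (tp w) i + x + 1) ((u ++ (w.flatMap h ++ v)).length + 1) := by
        unfold mv
        rw [if_neg m0, if_neg m1]
      rw [e1]
      by_cases x1 : x + 1 < (Bk u v h (decide (i = 0), w[i - 1]?)).length
      · rw [if_pos x1, Prod.mk.injEq] at hm
        obtain ⟨rfl, rfl⟩ := hm
        have e2 : i' = i := hi'
        subst e2
        refine ⟨hi, x1, ?_⟩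
        have hP' := st_lt (Bk u v h) (tp w) i' _ (tp_get w i' hi) (x + 1) x1
        rw [hlen] at hP'
        show min _ _ = st (Bk u v h) (tp w) i' + (x + 1)
        omega
      · rw [if_neg x1] at hm
        have x2 : x + 1 = (Bk u v h (decide (i = 0), w[i - 1]?)).length := by omega
        by_cases hl : i = w.length + 1
        · have hc : (decide (i = 0), w[i - 1]?).1 = false ∧
              (decide (i = 0), w[i - 1]?).2.isNone = true := by
            rw [hl]
            simp
          rw [if_pos hc, Prod.mk.injEq] at hm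
          obtain ⟨rfl, rfl⟩ := hm
          have e2 : i' = i := hi'
          subst e2
          refine ⟨hi, hx, ?_⟩
          have hL : st (Bk u v h) (tp w) (i' + 1) = (u ++ (w.flatMap h ++ v)).length + 2 := by
            rw [st_last (Bk u v h) (tp w) (i' + 1) (by rw [tp_length, hl]), hlen]
          show min _ _ = st (Bk u v h) (tp w) i' + x
          omega
        · have hc : ¬ ((decide (i = 0), w[i - 1]?).1 = false ∧
              (decide (i = 0), w[i - 1]?).2.isNone = true) := by
            rintro ⟨c1, c2⟩
            have c1' : i ≠ 0 := by simpa using c1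
            have c2' : w.length ≤ i - 1 := by simpa using c2
            omega
          rw [if_neg hc, Prod.mk.injEq] at hm
          obtain ⟨rfl, rfl⟩ := hm
          have e2 : i' = i + 1 := by
            rw [hi']
            show min (i + 1) (w.length + 1) = i + 1
            omega
          subst e2
          have hi1 : i + 1 ≤ w.length + 1 := by omega
          have hpos := bk_pos u v h hh (decide (i + 1 = 0), w[i + 1 - 1]?)
          have hP' := st_lt (Bk u v h) (tp w) (i + 1) _ (tp_get w (i + 1) hi1) 0 hpos
          rw [hlen] at hP'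
          refine ⟨hi1, hpos, ?_⟩
          show min _ _ = st (Bk u v h) (tp w) (i + 1) + 0
          omega

/-! ### The automaton -/

/-- the offset in a finite set -/
private def cut (L : ℕ) (o : Option ℕ) : Option (Fin (L + 1)) :=
  o.map fun y => ⟨min y L, by omega⟩

private def vl {L : ℕ} (o : Option (Fin (L + 1))) : Option ℕ := o.map Fin.val

private theorem vl_cut (L len : ℕ) (hlen : len ≤ L) (o : Option ℕ) (h : ov len o < len) :
    ov len (vl (cut L o)) = ov len o := by
  cases o with
  | none => rfl
  | some y =>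
    have h' : y < len := h
    show min y L = y
    omega

theorem hAUB : StAUB := by
  intro α β _ K u v h hu hh hK
  rw [inL_iff] at hK ⊢
  obtain ⟨Q, hQ, k, δ, q₀, acc, hacc⟩ := hK
  obtain ⟨L, hL⟩ : ∃ L, ∀ s, (Bk u v h s).length ≤ L := by
    obtain ⟨L, hL⟩ := (Set.finite_range fun s => (Bk u v h s).length).bddAbove
    exact ⟨L, fun s => hL ⟨s, rfl⟩⟩
  -- the offsets, the letters read by the old automaton
  obtain ⟨X, hX⟩ : ∃ X : (Fin k → Option (Fin (L + 1))) → (Fin k → Bool × Option α) → Fin k → ℕ,
      X = fun s r j => ov (Bk u v h (r j)).length (vl (s j)) := ⟨_, rfl⟩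
  obtain ⟨D, hD⟩ : ∃ D : (Q × (Fin k → Option (Fin (L + 1)))) → (Fin k → Bool × Option α) →
      Q × (Fin k → Fin 3), D = fun c r =>
        δ c.1 (fun j => ((Bk u v h (r j))[X c.2 r j]?).getD (true, none)) := ⟨_, rfl⟩
  refine ⟨Q × (Fin k → Option (Fin (L + 1))), inferInstance, k,
    fun c r => (((D c r).1, fun j => cut L (hd (r j) (Bk u v h (r j)).length (X c.2 r j)
      ((D c r).2 j)).2), fun j => (hd (r j) (Bk u v h (r j)).length (X c.2 r j)
      ((D c r).2 j)).1), (q₀, fun _ => some 0), {c | c.1 ∈ acc}, ?_⟩
  intro w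
  obtain ⟨δ', hδ'⟩ : ∃ δ' : (Q × (Fin k → Option (Fin (L + 1)))) → (Fin k → Bool × Option α) →
      (Q × (Fin k → Option (Fin (L + 1)))) × (Fin k → Fin 3), δ' =
      fun c r => (((D c r).1, fun j => cut L (hd (r j) (Bk u v h (r j)).length (X c.2 r j)
      ((D c r).2 j)).2), fun j => (hd (r j) (Bk u v h (r j)).length (X c.2 r j)
      ((D c r).2 j)).1) := ⟨_, rfl⟩
  rw [← hδ']
  have key : ∀ t : ℕ,
      ((stp δ' w)^[t] ((q₀, fun _ => some 0), fun _ => 0)).1.1 =
        ((stp δ (u ++ (w.flatMap h ++ v)))^[t] (q₀, fun _ => 0)).1 ∧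
      ∀ j, ((stp δ' w)^[t] ((q₀, fun _ => some 0), fun _ => 0)).2 j ≤ w.length + 1 ∧
        ov (Bk u v h (decide (((stp δ' w)^[t] ((q₀, fun _ => some 0), fun _ => 0)).2 j = 0),
          w[((stp δ' w)^[t] ((q₀, fun _ => some 0), fun _ => 0)).2 j - 1]?)).length
          (vl (((stp δ' w)^[t] ((q₀, fun _ => some 0), fun _ => 0)).1.2 j)) <
          (Bk u v h (decide (((stp δ' w)^[t] ((q₀, fun _ => some 0), fun _ => 0)).2 j = 0),
          w[((stp δ' w)^[t] ((q₀, fun _ => some 0), fun _ => 0)).2 j - 1]?)).length ∧
        ((stp δ (u ++ (w.flatMap h ++ v)))^[t] (q₀, fun _ => 0)).2 j =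
          st (Bk u v h) (tp w) (((stp δ' w)^[t] ((q₀, fun _ => some 0), fun _ => 0)).2 j) +
          ov (Bk u v h (decide (((stp δ' w)^[t] ((q₀, fun _ => some 0), fun _ => 0)).2 j = 0),
          w[((stp δ' w)^[t] ((q₀, fun _ => some 0), fun _ => 0)).2 j - 1]?)).length
          (vl (((stp δ' w)^[t] ((q₀, fun _ => some 0), fun _ => 0)).1.2 j)) := by
    intro t
    induction t with
    | zero =>
      refine ⟨rfl, fun j => ⟨Nat.zero_le _, ?_, ?_⟩⟩
      · exact bk_pos u v h hh _
      · show 0 = st (Bk u v h) (tp w) 0 + 0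
        rw [st_zero]
    | succ t ih =>
      rw [Function.iterate_succ_apply', Function.iterate_succ_apply']
      obtain ⟨c', hc'⟩ : ∃ c', c' = (stp δ' w)^[t] ((q₀, fun _ => some 0), fun _ => 0) :=
        ⟨_, rfl⟩
      obtain ⟨c, hc⟩ : ∃ c, c = (stp δ (u ++ (w.flatMap h ++ v)))^[t] (q₀, fun _ => 0) :=
        ⟨_, rfl⟩
      rw [← hc', ← hc] at ih ⊢
      obtain ⟨ih1, ih2⟩ := ih
      obtain ⟨r, hr⟩ : ∃ r : Fin k → Bool × Option α,
          r = fun j => (decide (c'.2 j = 0), w[c'.2 j - 1]?) := ⟨_, rfl⟩
      -- the letters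
      have hread : (fun j => ((Bk u v h (r j))[X c'.1.2 r j]?).getD (true, none)) =
          fun j => (decide (c.2 j = 0), (u ++ (w.flatMap h ++ v))[c.2 j - 1]?) := by
        funext j
        obtain ⟨i1, i2, i3⟩ := ih2 j
        have e1 := flat_get (Bk u v h) (tp w) (c'.2 j) _ (tp_get w _ i1) _ i2
        rw [← i3, ← tp_flat u v h hu w] at e1
        have e2 := st_lt (Bk u v h) (tp w) (c'.2 j) _ (tp_get w _ i1) _ i2
        rw [← i3, ← tp_flat u v h hu w, tp_length] at e2
        rw [tp_get _ _ (by omega)] at e1
        have e3 : (Bk u v h (r j))[X c'.1.2 r j]? =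
            some (decide (c.2 j = 0), (u ++ (w.flatMap h ++ v))[c.2 j - 1]?) := by
          rw [hX, hr]
          exact e1.symm
        rw [e3]
        rfl
      have hDD : D c'.1 r = δ c.1 (fun j => (decide (c.2 j = 0),
          (u ++ (w.flatMap h ++ v))[c.2 j - 1]?)) := by
        rw [hD]
        show δ c'.1.1 (fun j => ((Bk u v h (r j))[X c'.1.2 r j]?).getD (true, none)) = _
        rw [hread, ih1]
      have s1 : (stp δ' w c').1 = ((D c'.1 r).1, fun j => cut L (hd (r j)
          (Bk u v h (r j)).length (X c'.1.2 r j) ((D c'.1 r).2 j)).2) := by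
        rw [hr]
        unfold stp
        rw [hδ']
      have s2 : ∀ j, (stp δ' w c').2 j = mv w.length (hd (r j)
          (Bk u v h (r j)).length (X c'.1.2 r j) ((D c'.1 r).2 j)).1 (c'.2 j) := by
        intro j
        rw [hr]
        unfold stp mv
        rw [hδ']
      have s3 : (stp δ (u ++ (w.flatMap h ++ v)) c).1 = (D c'.1 r).1 := by
        rw [hDD]
        rfl
      have s4 : ∀ j, (stp δ (u ++ (w.flatMap h ++ v)) c).2 j =
          mv (u ++ (w.flatMap h ++ v)).length ((D c'.1 r).2 j) (c.2 j) := by
        intro j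
        rw [hDD]
        rfl
      refine ⟨by rw [s1, s3], fun j => ?_⟩
      obtain ⟨i1, i2, i3⟩ := ih2 j
      obtain ⟨t1, t2, t3⟩ := head_step u v h hu hh w (c'.2 j) _ i1 i2 ((D c'.1 r).2 j)
        (hd (r j) (Bk u v h (r j)).length (X c'.1.2 r j) ((D c'.1 r).2 j)).1
        (hd (r j) (Bk u v h (r j)).length (X c'.1.2 r j) ((D c'.1 r).2 j)).2
        ((stp δ' w c').2 j) (by rw [hX, hr]) (s2 j)
      have s5 : (stp δ' w c').1.2 j = cut L (hd (r j)
          (Bk u v h (r j)).length (X c'.1.2 r j) ((D c'.1 r).2 j)).2 := by rw [s1]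
      rw [s5, vl_cut L _ (hL _) _ t2]
      refine ⟨t1, t2, ?_⟩
      rw [s4, i3]
      exact t3
  constructor
  · intro hw
    obtain ⟨t, ht⟩ := (hacc _).1 hw
    refine ⟨t, ?_⟩
    show ((stp δ' w)^[t] ((q₀, fun _ => some 0), fun _ => 0)).1.1 ∈ acc
    rw [(key t).1]
    exact ht
  · rintro ⟨t, ht⟩
    refine (hacc _).2 ⟨t, ?_⟩
    rw [← (key t).1]
    exact ht

end Pool.Agent.Helper38.DR
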